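import Pool.Agent.N805.DT.E

set_option autoImplicit false

/-!
# MP_67227b_nt: the sine kernel is the only kernel, and Q1 says that the zeros are determinantal

Under the Riemann hypothesis: if the correlations of all orders of the zeros of zeta exist (along any
sequence of heights) and are the determinants `det K(x_i, x_j)` of some continuous Hermitian kernel
`K` on the plane with `K(x, x) = 1`, not assumed to be invariant under translations, then `K` is
equivalent to the sine kernel, `K(x, y) = g(x) conj(g(y)) sin(π(x - y)) / (π(x - y))` with `|g| = 1`, and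
so Q1 holds (along this sequence). Conversely Q1 is the case of the sine kernel. So Q1 holds if and
only if the zeros are asymptotically a determinantal process with a continuous Hermitian kernel.
-/

namespace Pool.Agent.Results.MP_67227b_nt.DeterminantalCharacterisation

open Filter MeasureTheory
open scoped ComplexConjugate

/-- multiplicity of `s` as a zero of the Riemann zeta function (order of vanishing at `s`) -/
noncomputable def zmult (s : ℂ) : ℕ := analyticOrderNatAt riemannZeta s

/-- the number of nontrivial zeros of `ζ` with ordinate in `(0, t]`, with multiplicity -/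
noncomputable def NZ (t : ℝ) : ℕ :=
  ∑ᶠ s ∈ {s : ℂ | riemannZeta s = 0 ∧ 0 < s.re ∧ s.re < 1 ∧ 0 < s.im ∧ s.im ≤ t}, zmult s

/-- for `n ≥ 1`: the `n`-th positive ordinate `γ n` of a nontrivial zero of `ζ`, the ordinates being
listed in nondecreasing order and repeated according to multiplicity -/
noncomputable def γ (n : ℕ) : ℝ := sInf {t : ℝ | n ≤ NZ t}

/-- `N_{k+1}(T; B)`, `B = ∏ [x_i, y_i]` a box of dimension `k`: the number of tuples of distinct indices
(one index `j none`, and one index `j (some i)` for each side `i` of the box) with ordinates `≤ T` such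
that `(γ_{j (some i)} - γ_{j none}) log T / 2π ∈ [x_i, y_i]` for all `i` -/
noncomputable def N {ι : Type} (T : ℝ) (x y : ι → ℝ) : ℕ :=
  {j : Option ι → ℕ | Function.Injective j ∧ (∀ i, 1 ≤ j i ∧ γ (j i) ≤ T) ∧
    ∀ i : ι, (γ (j (some i)) - γ (j none)) * (Real.log T / (2 * Real.pi)) ∈
      Set.Icc (x i) (y i)}.ncard

/-- `(T / 2π) log T` -/
noncomputable def X (T : ℝ) : ℝ := T / (2 * Real.pi) * Real.log T

/-- the `k + 1` points `t` and `t + u_i`, `i < k` -/
def pt {k : ℕ} (t : ℝ) (u : Fin k → ℝ) (o : Option (Fin k)) : ℝ := o.elim t fun i => t + u i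

/-- `s(u) = sin(π u) / (π u)`, `s(0) = 1` -/
noncomputable def s (u : ℝ) : ℝ := Real.sinc (Real.pi * u)

/-- The correlations of all orders `k + 1 ≥ 2` exist along `l` and are the determinants of `K`: for
every real `t` and every box `B = ∏ [x_i, y_i]` of dimension `k`, `N_{k+1}(T; B) / X T` tends to the
integral over `u ∈ B` of the determinant of the matrix of the values of `K` at the points
`t, t + u_1, …, t + u_k`. -/
def Determinantal (l : Filter ℝ) (K : ℝ → ℝ → ℂ) : Prop :=
  ∀ k : ℕ, 1 ≤ k → ∀ (t : ℝ) (x y : Fin k → ℝ), (∀ i, x i < y i) →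
    Tendsto (fun T => (N T x y : ℝ) / X T) l
      (nhds (∫ u in Set.Icc x y, (Matrix.det (Matrix.of fun i j => K (pt t u i) (pt t u j))).re))

/-- Q1 along `l`: for all `k ≥ 1` and all boxes `B` of dimension `k`, `N_{k+1}(T; B) / X T` tends to the
integral over `u ∈ B` of the determinant of the sine kernel at the points `0, u_1, …, u_k`. -/
def SineCorrelations (l : Filter ℝ) : Prop :=
  ∀ k : ℕ, 1 ≤ k → ∀ x y : Fin k → ℝ, (∀ i, x i < y i) →
    Tendsto (fun T => (N T x y : ℝ) / X T) l
      (nhds (∫ u in Set.Icc x y, Matrix.det (Matrix.of fun i j : Option (Fin k) =>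
        s (pt 0 u i - pt 0 u j))))

/-- Under the Riemann hypothesis, along every filter `l ≤ atTop`: every continuous Hermitian kernel `K`
on the plane with `K(x, x) = 1` whose determinants are the correlations of the zeros is equivalent to
the sine kernel, and then Q1 holds along `l`; conversely Q1 is the case of the sine kernel. -/
theorem result (hRH : RiemannHypothesis) (l : Filter ℝ) [l.NeBot] (hl : l ≤ atTop) :
    (∀ K : ℝ → ℝ → ℂ, Continuous (fun p : ℝ × ℝ => K p.1 p.2) → (∀ x y, K y x = conj (K x y)) →
      (∀ x, K x x = 1) → Determinantal l K →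
      (∃ g : ℝ → ℂ, Continuous g ∧ (∀ x, ‖g x‖ = 1) ∧
        ∀ x y, K x y = g x * conj (g y) * (s (x - y) : ℂ)) ∧ SineCorrelations l) ∧
    (SineCorrelations l → Determinantal l fun x y => (s (x - y) : ℂ)) :=
  Pool.Agent.N805.DT.main hRH l hl

end Pool.Agent.Results.MP_67227b_nt.DeterminantalCharacterisation
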