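import Pool.Agent.N805.GM.D

/-!
# All moments of the sums of consecutive normalised gaps

Assume the Riemann hypothesis, and let `δ n` be the gaps of the normalised ordinates
`(1 / 2π) γ_n log γ_n`.  For
`r log r ≤ log N`, as `r → ∞`, the sums of the gaps over the blocks `n, …, n + b_i - 1` of lengths
`b_1, …, b_k ≤ r`, centred and divided by `√(log r) / π`, behave in the mean over `n ≤ N` like a
centred Gaussian vector with the covariances `(log b_i + log b_j - log |b_i - b_j|) / (2 log r)` of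
GUE, not only in law but for all moments, uniformly in the lengths of the blocks.

The proof uses the moment bounds and the joint law for the unfolded gaps
`(γ_{n+1} - γ_n) / 2π · log (γ_n / 2π)` of the starting files `Pool.Agent.R320` (which had not been
handed in), and a comparison in all moments of the two normalisations.
-/

open Filter Set MeasureTheory

namespace Pool.Agent.Results.MP_67227b_nt.GapSumMoments

/-- multiplicity of `s` as a zero of the Riemann zeta function (order of vanishing at `s`) -/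
noncomputable def zmult (s : ℂ) : ℕ := analyticOrderNatAt riemannZeta s

/-- the number of nontrivial zeros of `ζ` with ordinate in `(0, t]`, with multiplicity -/
noncomputable def NZ (t : ℝ) : ℕ :=
  ∑ᶠ s ∈ {s : ℂ | riemannZeta s = 0 ∧ 0 < s.re ∧ s.re < 1 ∧ 0 < s.im ∧ s.im ≤ t}, zmult s

/-- for `n ≥ 1`: the `n`-th positive ordinate `γ n` of a nontrivial zero of `ζ`, the ordinates being
listed in nondecreasing order and repeated according to multiplicity -/
noncomputable def γ (n : ℕ) : ℝ := sInf {t : ℝ | n ≤ NZ t}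

/-- the normalised ordinate `(1 / 2π) γ_n log γ_n` -/
noncomputable def γt (n : ℕ) : ℝ := 1 / (2 * Real.pi) * γ n * Real.log (γ n)

/-- the normalised gap -/
noncomputable def δ (n : ℕ) : ℝ := γt (n + 1) - γt n

/-- the sum of the `b` consecutive gaps `δ_n, …, δ_{n+b-1}`, centred (the mean value is `b`) and
divided by `√(log r) / π` -/
noncomputable def X (r b n : ℕ) : ℝ :=
  (∑ i ∈ Finset.range b, δ (n + i) - b) / (Real.sqrt (Real.log r) / Real.pi)

/-- the limiting covariance of `X r b` and `X r b'`; here `log 0 = 0` when `b = b'` -/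
noncomputable def Γ (r b b' : ℕ) : ℝ :=
  (Real.log b + Real.log b' - Real.log |(b : ℝ) - b'|) / (2 * Real.log r)

/-- Assume RH and let `r log r ≤ log N`, `r → ∞`.  (1) Joint law: for every continuous `f` of
polynomial growth the mean over `n ≤ N` of `f (∑ c_i X_{b_i})` is close to the expectation of `f` for
the centred normal law whose variance is the positive part of `∑ c_i c_j Γ (b_i, b_j)`, uniformly in
the lengths `1 ≤ b_i ≤ r`.  (2) Every moment of the normalised sum of `r` consecutive gaps converges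
to the moment of the standard normal law.  (3) The covariances of the sums over blocks of lengths
`a, b ≤ r` are `Γ (a, b) + o(1)`, uniformly. -/
theorem result (RH : RiemannHypothesis) :
    (∀ (k : ℕ) (c : Fin k → ℝ) (f : ℝ → ℝ), Continuous f → ∀ (A : ℝ) (p : ℕ),
      (∀ x, |f x| ≤ A * (1 + |x|) ^ p) → ∀ ε : ℝ, 0 < ε → ∃ r₀ : ℕ, ∀ r : ℕ, r₀ ≤ r →
      ∀ N : ℕ, 1 ≤ N → r * Real.log r ≤ Real.log N →
      ∀ b : Fin k → ℕ, (∀ i, 1 ≤ b i ∧ b i ≤ r) →
        |(1 / N : ℝ) * ∑ n ∈ Finset.Icc 1 N, f (∑ i, c i * X r (b i) n) -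
          ∫ x, f x ∂(ProbabilityTheory.gaussianReal 0
            (∑ i, ∑ j, c i * c j * Γ r (b i) (b j)).toNNReal)| ≤ ε) ∧
    (∀ (p : ℕ) (ε : ℝ), 0 < ε → ∃ r₀ : ℕ, ∀ r : ℕ, r₀ ≤ r →
      ∀ N : ℕ, 1 ≤ N → r * Real.log r ≤ Real.log N →
        |(1 / N : ℝ) * ∑ n ∈ Finset.Icc 1 N, X r r n ^ p -
          ∫ x, x ^ p ∂(ProbabilityTheory.gaussianReal 0 1)| ≤ ε) ∧
    (∀ ε : ℝ, 0 < ε → ∃ r₀ : ℕ, ∀ r : ℕ, r₀ ≤ r →
      ∀ N : ℕ, 1 ≤ N → r * Real.log r ≤ Real.log N →
      ∀ a b : ℕ, 1 ≤ a → a ≤ r → 1 ≤ b → b ≤ r →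
        |(1 / N : ℝ) * ∑ n ∈ Finset.Icc 1 N, X r a n * X r b n - Γ r a b| ≤ ε) := by
  have hRHs : SP.RHs := by
    intro s h1 h2 h0
    apply RH s h0
    · rintro ⟨k, hk⟩
      have := congrArg Complex.re hk
      simp at this
      have hk0 : (0 : ℝ) ≤ k := Nat.cast_nonneg k
      linarith
    · intro h; rw [h] at h2; simp at h2
  have hδ : ∀ n, δ n = LG.dlt n := by
    intro n
    have e : ∀ m : ℕ, SG.ord m = γ m := fun m => rfl
    unfold LG.dlt δ γt
    rw [e, e]
    ring
  have hX : ∀ r b n, X r b n = (Pool.Agent.N805.GM.St b n - b) / Pool.Agent.Y743.CL.lm r := by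
    intro r b n
    unfold X Pool.Agent.N805.GM.St Pool.Agent.Y743.CL.lm
    simp_rw [hδ]
  have hgen : ∀ (k : ℕ) (c : Fin k → ℝ) (f : ℝ → ℝ), Continuous f → ∀ (A : ℝ) (p : ℕ),
      (∀ x, |f x| ≤ A * (1 + |x|) ^ p) → ∀ ε : ℝ, 0 < ε → ∃ r₀ : ℕ, ∀ r : ℕ, r₀ ≤ r →
      ∀ N : ℕ, 1 ≤ N → r * Real.log r ≤ Real.log N →
      ∀ b : Fin k → ℕ, (∀ i, 1 ≤ b i ∧ b i ≤ r) →
        |(1 / N : ℝ) * ∑ n ∈ Finset.Icc 1 N, f (∑ i, c i * X r (b i) n) -
          ∫ x, f x ∂(ProbabilityTheory.gaussianReal 0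
            (∑ i, ∑ j, c i * c j * Γ r (b i) (b j)).toNNReal)| ≤ ε := by
    intro k c f hf A p hfA ε hε
    obtain ⟨r₀, h⟩ := Pool.Agent.N805.GM.main hRHs c f hf A p hfA ε hε
    refine ⟨r₀, fun r hr N hN hrN b hb => ?_⟩
    have h1 := h r hr N hN hrN b hb
    have e1 : ∀ n, Pool.Agent.N805.GM.fnt c r b n = ∑ i, c i * X r (b i) n := by
      intro n
      unfold Pool.Agent.N805.GM.fnt
      rw [Finset.sum_div]
      refine Finset.sum_congr rfl fun i _ => ?_
      rw [hX, mul_div_assoc]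
    have e2 : Pool.Agent.R320.JL.QQ c r b = ∑ i, ∑ j, c i * c j * Γ r (b i) (b j) := rfl
    simp_rw [e1, e2] at h1
    rw [one_div]
    exact h1
  refine ⟨hgen, fun p ε hε => ?_, fun ε hε => ?_⟩
  · obtain ⟨r₀, h⟩ := hgen 1 (fun _ => 1) (fun x => x ^ p) (by fun_prop) 1 p (fun x => by
      rw [one_mul, abs_pow]
      exact pow_le_pow_left₀ (abs_nonneg _) (by linarith [abs_nonneg x]) p) ε hε
    refine ⟨max r₀ 2, fun r hr N hN hrN => ?_⟩
    have hr2 : 2 ≤ r := (le_max_right _ _).trans hr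
    have h1 := h r ((le_max_left _ _).trans hr) N hN hrN (fun _ => r) (fun _ => ⟨by omega, le_rfl⟩)
    have hl : 0 < Real.log r := Real.log_pos (by exact_mod_cast hr2)
    have e3 : Γ r r r = 1 := by
      unfold Γ
      rw [sub_self, abs_zero, Real.log_zero]
      field_simp
      ring
    simp only [Finset.univ_unique, Fin.default_eq_zero, Finset.sum_const, Finset.card_singleton,
      one_smul, one_mul, e3, Real.toNNReal_one] at h1
    exact h1
  · obtain ⟨r₀, h⟩ := eventually_atTop.1 (Pool.Agent.N805.GM.cov hRHs ε hε)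
    refine ⟨r₀, fun r hr N hN hrN a b ha har hb hbr => ?_⟩
    have h1 := h r hr N hN hrN a b ha har hb hbr
    simp_rw [hX]
    rw [one_div]
    exact h1

end Pool.Agent.Results.MP_67227b_nt.GapSumMoments
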