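import Pool.Agent.R320.JL.Fin

/-!
# The joint normal law of the sums of consecutive unfolded gaps, unconditionally

Let `δ n` be the unfolded gaps between consecutive zeros, of mean value `1` (the Riemann hypothesis is not
used: `γ n` is the `n`-th positive ordinate of a nontrivial zero).  For `r log r ≤ log N`:

(1) the distribution function of the normalised sum of `r` consecutive gaps,
`(δ_n + … + δ_{n+r-1} - r) / (√(log r) / π)`, `n ≤ N`, is uniformly close to the standard normal
distribution function when `r` is large;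

(2) the sums of the gaps over the blocks `n, …, n + b_i - 1` of lengths `b_1, …, b_k ≤ r` are,
uniformly in the lengths, jointly close to a centred Gaussian vector with the covariances
`(log b_i + log b_j - log |b_i - b_j|) / (2 log r)` which the GUE hypothesis predicts.

The theorems `Pool.Agent.R320.CL.normal_unif` and `Pool.Agent.R320.JL.joint` used here are from the
starting files and had not been handed in.
-/

open Filter Set

namespace Pool.Agent.Results.MP_67227b_nt.JointNormalLaw

/-- multiplicity of `s` as a zero of the Riemann zeta function (order of vanishing at `s`) -/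
noncomputable def zmult (s : ℂ) : ℕ := analyticOrderNatAt riemannZeta s

/-- the number of nontrivial zeros of `ζ` with ordinate in `(0, t]`, with multiplicity -/
noncomputable def NZ (t : ℝ) : ℕ :=
  ∑ᶠ s ∈ {s : ℂ | riemannZeta s = 0 ∧ 0 < s.re ∧ s.re < 1 ∧ 0 < s.im ∧ s.im ≤ t}, zmult s

/-- for `n ≥ 1`: the `n`-th positive ordinate `γ n` of a nontrivial zero of `ζ`, the ordinates being
listed in nondecreasing order and repeated according to multiplicity -/
noncomputable def γ (n : ℕ) : ℝ := sInf {t : ℝ | n ≤ NZ t}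

/-- the unfolded consecutive gaps `δ_n = (γ_{n+1} - γ_n) / 2π · log (γ_n / 2π)` -/
noncomputable def δ (n : ℕ) : ℝ := (γ (n + 1) - γ n) / (2 * Real.pi) * Real.log (γ n / (2 * Real.pi))

/-- the sum of the `b` consecutive gaps `δ_n, …, δ_{n+b-1}`, centred (the mean value is `b`) and
divided by `√(log r) / π` -/
noncomputable def X (r b n : ℕ) : ℝ :=
  (∑ i ∈ Finset.range b, δ (n + i) - b) / (Real.sqrt (Real.log r) / Real.pi)

/-- the limiting covariance of `X r b` and `X r b'`; here `log 0 = 0` when `b = b'` -/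
noncomputable def Γ (r b b' : ℕ) : ℝ :=
  (Real.log b + Real.log b' - Real.log |(b : ℝ) - b'|) / (2 * Real.log r)

/-- Unconditionally, for `r log r ≤ log N`, as `r → ∞`: (1) the distribution of the normalised sums
of `r` consecutive unfolded gaps is uniformly close to the standard normal distribution; (2) the
joint characteristic function of the normalised sums over blocks of lengths `b_1, …, b_k ≤ r` is,
uniformly in the lengths, close to that of the centred Gaussian vector with covariances `Γ`. -/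
theorem result :
    (∀ ε : ℝ, 0 < ε → ∃ r₀ : ℕ, ∀ r : ℕ, r₀ ≤ r → ∀ N : ℕ, 1 ≤ N →
      r * Real.log r ≤ Real.log N → ∀ x : ℝ,
        |(1 / N : ℝ) * ({n : ℕ | 1 ≤ n ∧ n ≤ N ∧ X r r n ≤ x}.ncard : ℝ) -
          (ProbabilityTheory.gaussianReal 0 1).real (Iic x)| ≤ ε) ∧
    ∀ (k : ℕ) (c : Fin k → ℝ) (ε : ℝ), 0 < ε → ∃ r₀ : ℕ, ∀ r : ℕ, r₀ ≤ r → ∀ N : ℕ, 1 ≤ N →
      r * Real.log r ≤ Real.log N → ∀ b : Fin k → ℕ, (∀ i, 1 ≤ b i ∧ b i ≤ r) →
        ‖(1 / N : ℂ) * ∑ n ∈ Finset.Icc 1 N,
            Complex.exp (Complex.I * ((∑ i, c i * X r (b i) n : ℝ) : ℂ)) -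
          (Real.exp (-(1 / 2) * ∑ i, ∑ j, c i * c j * Γ r (b i) (b j)) : ℂ)‖ ≤ ε := by
  refine ⟨fun ε hε => ?_, fun k c ε hε => ?_⟩
  · obtain ⟨r₀, hr₀⟩ := (Pool.Agent.R320.CL.normal_unif ε hε).exists_forall_of_atTop
    refine ⟨max r₀ 2, fun r hr N hN hrN x => ?_⟩
    have hr2 : 2 ≤ r := (le_max_right _ _).trans hr
    have h := hr₀ r ((le_max_left _ _).trans hr) N hN hrN x
    have hNpos : (0 : ℝ) < N := by exact_mod_cast hN
    have hlm : 0 < Real.sqrt (Real.log r) / Real.pi :=
      div_pos (Real.sqrt_pos.2 (Real.log_pos (by exact_mod_cast hr2))) Real.pi_pos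
    have hset : {n : ℕ | 1 ≤ n ∧ n ≤ N ∧ X r r n ≤ x} =
        ((Finset.Icc 1 N).filter (fun n => Pool.Agent.R320.CL.Ss x r n) : Set ℕ) := by
      ext n
      rw [Finset.coe_filter]
      simp only [mem_setOf_eq, Finset.mem_Icc, and_assoc]
      refine and_congr_right fun _ => and_congr_right fun _ => ?_
      show (∑ i ∈ Finset.range r, δ (n + i) - r) / (Real.sqrt (Real.log r) / Real.pi) ≤ x ↔
        ∑ i ∈ Finset.range r, δ (n + i) ≤ r + x * (Real.sqrt (Real.log r) / Real.pi)
      rw [div_le_iff₀ hlm]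
      constructor <;> intro h <;> linarith
    rw [hset, ncard_coe_finset]
    have e : (1 / N : ℝ) * (((Finset.Icc 1 N).filter
        (fun n => Pool.Agent.R320.CL.Ss x r n)).card : ℝ) -
          (ProbabilityTheory.gaussianReal 0 1).real (Iic x) =
        ((((Finset.Icc 1 N).filter (fun n => Pool.Agent.R320.CL.Ss x r n)).card : ℝ) -
          (ProbabilityTheory.gaussianReal 0 1).real (Iic x) * N) / N := by
      field_simp
    rw [e, abs_div, abs_of_pos hNpos, div_le_iff₀ hNpos]
    exact h
  · obtain ⟨r₀, hr₀⟩ := (Pool.Agent.R320.JL.joint c ε hε).exists_forall_of_atTop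
    refine ⟨r₀, fun r hr N hN hrN b hb => ?_⟩
    have h := hr₀ r hr N hN hrN b hb
    have hNpos : (0 : ℝ) < N := by exact_mod_cast hN
    have hNC : (N : ℂ) ≠ 0 := by exact_mod_cast hNpos.ne'
    have hfn : ∀ n, (∑ i, c i * X r (b i) n) = Pool.Agent.R320.JL.fn c r b n := by
      intro n
      unfold Pool.Agent.R320.JL.fn
      rw [Finset.sum_div]
      refine Finset.sum_congr rfl fun i _ => ?_
      show c i * ((∑ l ∈ Finset.range (b i), δ (n + l) - b i) / (Real.sqrt (Real.log r) / Real.pi)) =
        c i * (∑ l ∈ Finset.range (b i), δ (n + l) - b i) / (Real.sqrt (Real.log r) / Real.pi)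
      rw [mul_div_assoc]
    have hQ : -(1 / 2) * ∑ i, ∑ j, c i * c j * Γ r (b i) (b j) =
        -(Pool.Agent.R320.JL.QQ c r b / 2) := by
      unfold Pool.Agent.R320.JL.QQ Pool.Agent.R320.JL.ld Γ
      ring
    rw [hQ]
    have e : (1 / N : ℂ) * ∑ n ∈ Finset.Icc 1 N,
            Complex.exp (Complex.I * ((∑ i, c i * X r (b i) n : ℝ) : ℂ)) -
          (Real.exp (-(Pool.Agent.R320.JL.QQ c r b / 2)) : ℂ) =
        (1 / N : ℂ) * ∑ n ∈ Finset.Icc 1 N, (Complex.exp (Complex.I *
          (Pool.Agent.R320.JL.fn c r b n : ℂ)) - (Real.exp (-(Pool.Agent.R320.JL.QQ c r b / 2)) : ℂ)) := by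
      rw [Finset.sum_sub_distrib, Finset.sum_const, Nat.card_Icc, Nat.add_sub_cancel,
        nsmul_eq_mul, mul_sub, ← mul_assoc, one_div, inv_mul_cancel₀ hNC, one_mul]
      congr 2
      refine Finset.sum_congr rfl fun n _ => ?_
      rw [hfn n]
    rw [e, norm_mul, norm_div, norm_one, Complex.norm_natCast, one_div, inv_mul_eq_div,
      div_le_iff₀ hNpos]
    exact h

end Pool.Agent.Results.MP_67227b_nt.JointNormalLaw
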