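import Pool.Agent.N805.OS.F

set_option autoImplicit false

/-!
# MP_67227b_nt: one half of the correlations of one order gives the correlations of all lower orders

Under the Riemann hypothesis, along any sequence of heights: if the counts of `(K+1)`-tuples of zeros in
boxes are asymptotically at most (or: at least) the integral of the sine-kernel determinant, for all
boxes of dimension `K`, then the asymptotics of Q1 hold for all boxes of all dimensions `1 ≤ k ≤ K`.
So the correlations of one order determine those of all lower orders, and Q1 for all orders is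
equivalent to one of its two halves for infinitely many orders.
-/

namespace Pool.Agent.Results.MP_67227b_nt.OneSidedHierarchy

open Filter MeasureTheory

/-- multiplicity of `s` as a zero of the Riemann zeta function (order of vanishing at `s`) -/
noncomputable def zmult (s : ℂ) : ℕ := analyticOrderNatAt riemannZeta s

/-- the number of nontrivial zeros of `ζ` with ordinate in `(0, t]`, with multiplicity -/
noncomputable def NZ (t : ℝ) : ℕ :=
  ∑ᶠ s ∈ {s : ℂ | riemannZeta s = 0 ∧ 0 < s.re ∧ s.re < 1 ∧ 0 < s.im ∧ s.im ≤ t}, zmult s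

/-- for `n ≥ 1`: the `n`-th positive ordinate `γ n` of a nontrivial zero of `ζ`, the ordinates being
listed in nondecreasing order and repeated according to multiplicity -/
noncomputable def γ (n : ℕ) : ℝ := sInf {t : ℝ | n ≤ NZ t}

/-- `N_{k+1}(T; B)`, `B = ∏ [x_i, y_i]` a box of dimension `k`: the number of tuples of distinct indices
(one index `j none`, and one index `j (some i)` for each side `i` of the box) with ordinates `≤ T` such
that `(γ_{j (some i)} - γ_{j none}) log T / 2π ∈ [x_i, y_i]` for all `i` -/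
noncomputable def N {ι : Type} (T : ℝ) (x y : ι → ℝ) : ℕ :=
  {j : Option ι → ℕ | Function.Injective j ∧ (∀ i, 1 ≤ j i ∧ γ (j i) ≤ T) ∧
    ∀ i : ι, (γ (j (some i)) - γ (j none)) * (Real.log T / (2 * Real.pi)) ∈
      Set.Icc (x i) (y i)}.ncard

/-- `(T / 2π) log T` -/
noncomputable def X (T : ℝ) : ℝ := T / (2 * Real.pi) * Real.log T

/-- the `k + 1` points `0` and `u_i`, `i < k` -/
def pt {k : ℕ} (u : Fin k → ℝ) (o : Option (Fin k)) : ℝ := o.elim 0 u

/-- `s(u) = sin(π u) / (π u)`, `s(0) = 1` -/
noncomputable def s (u : ℝ) : ℝ := Real.sinc (Real.pi * u)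

/-- `∫_B det A(u_1, …, u_k, 0) du`, `B = ∏ [x_i, y_i]`, `A` the matrix of the values of `s` at the
differences of the points `0, u_1, …, u_k` -/
noncomputable def I {k : ℕ} (x y : Fin k → ℝ) : ℝ :=
  ∫ u in Set.Icc x y, Matrix.det (Matrix.of fun i j : Option (Fin k) => s (pt u i - pt u j))

/-- the upper half of Q1 along `l` for `k + 1` zeros (boxes of dimension `k`) -/
def Upper (l : Filter ℝ) (k : ℕ) : Prop := ∀ x y : Fin k → ℝ, (∀ i, x i < y i) →
  ∀ ε : ℝ, 0 < ε → ∀ᶠ T in l, (N T x y : ℝ) / X T ≤ I x y + ε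

/-- the lower half of Q1 along `l` for `k + 1` zeros (boxes of dimension `k`) -/
def Lower (l : Filter ℝ) (k : ℕ) : Prop := ∀ x y : Fin k → ℝ, (∀ i, x i < y i) →
  ∀ ε : ℝ, 0 < ε → ∀ᶠ T in l, I x y - ε ≤ (N T x y : ℝ) / X T

/-- Q1 along `l` for `k + 1` zeros (boxes of dimension `k`) -/
def Full (l : Filter ℝ) (k : ℕ) : Prop := ∀ x y : Fin k → ℝ, (∀ i, x i < y i) →
  Tendsto (fun T => (N T x y : ℝ) / X T) l (nhds (I x y))

/-- Under the Riemann hypothesis, along every filter `l ≤ atTop`: if one of the two halves of Q1 holds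
for `K + 1` zeros, then Q1 holds for `k + 1` zeros for all `1 ≤ k ≤ K`. So Q1 holds for all orders if
and only if one of its halves holds for arbitrarily large orders. -/
theorem result (hRH : RiemannHypothesis) (l : Filter ℝ) (hl : l ≤ atTop) :
    (∀ K : ℕ, 1 ≤ K → (Upper l K ∨ Lower l K) → ∀ k : ℕ, 1 ≤ k → k ≤ K → Full l k) ∧
    ((∀ k : ℕ, 1 ≤ k → Full l k) ↔ ∀ K₀ : ℕ, ∃ K : ℕ, K₀ ≤ K ∧ (Upper l K ∨ Lower l K)) := by
  have hpt : ∀ {k : ℕ} (u : Fin k → ℝ) (o : Option (Fin k)), pt u o = Pool.Agent.N805.DT.pt 0 u o := by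
    intro k u o
    unfold pt Pool.Agent.N805.DT.pt
    cases o <;> simp
  have hI : ∀ {k : ℕ} (x y : Fin k → ℝ), I x y = Pool.Agent.N805.OS.I x y := by
    intro k x y
    unfold I Pool.Agent.N805.OS.I
    simp_rw [hpt]
    rfl
  have hU : ∀ k, Upper l k = Pool.Agent.N805.OS.Upper l k := by
    intro k
    unfold Upper Pool.Agent.N805.OS.Upper
    simp_rw [hI]
    rfl
  have hL : ∀ k, Lower l k = Pool.Agent.N805.OS.Lower l k := by
    intro k
    unfold Lower Pool.Agent.N805.OS.Lower
    simp_rw [hI]
    rfl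
  have hF : ∀ k, Full l k = Pool.Agent.N805.OS.Full l k := by
    intro k
    unfold Full Pool.Agent.N805.OS.Full
    simp_rw [hI]
    rfl
  simp_rw [hU, hL, hF]
  exact Pool.Agent.N805.OS.main hRH l hl

end Pool.Agent.Results.MP_67227b_nt.OneSidedHierarchy
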